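import Pool.Agent.Y120.J.Defs3
import Pool.Agent.Y988.J.FD

/-!
# J-ANC: the identities for the modular invariant in a half-plane
-/

set_option autoImplicit false

open PowerSeries Filter Topology
open Pool.Agent.TH21.MS (g0 g1 g2 jj jj_I jj_an jj_deriv jj_deriv2)

namespace Pool.Agent.Y319.J

open Pool.Agent.Y120.J Pool.Agent.Y113 Pool.Agent.Y988.J

/-- analyticity on a disc -/
lemma evc_an {f : ℚ⟦X⟧} (hf : SDc f) :
    ∃ r : ℝ, 0 < r ∧ ∀ x : ℂ, ‖x‖ < r → AnalyticAt ℂ (evc f) x := by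
  obtain ⟨n, hn⟩ := hf
  have hA := hn.one_le
  generalize (2 : ℝ) ^ n = A at hn hA
  have hA0 : 0 < A := by linarith
  have hsum : Summable fun m : ℕ => A ^ (m + 1) * (1 / (2 * A)) ^ m := by
    have h1 : (fun m : ℕ => A ^ (m + 1) * (1 / (2 * A)) ^ m) = fun m : ℕ => A * (1 / 2) ^ m := by
      funext m
      rw [pow_succ, mul_right_comm, ← mul_pow]
      have e : A * (1 / (2 * A)) = 1 / 2 := by field_simp
      rw [e, mul_comm]
    rw [h1]
    exact summable_geometric_two.mul_left A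
  have hd : DifferentiableOn ℂ (evc f) (Metric.ball 0 (1 / (2 * A))) := by
    refine Complex.differentiableOn_tsum_of_summable_norm hsum (fun m => ?_) Metric.isOpen_ball
      fun m u hu => ?_
    · exact ((differentiable_const _).mul (differentiable_id.pow m)).differentiableOn
    · rw [norm_mul, norm_pow]
      rw [Metric.mem_ball, dist_zero_right] at hu
      have h2 : ‖((coeff m f : ℚ) : ℂ)‖ ≤ A ^ (m + 1) := by
        have h3 := hn.1 m
        have h4 : ((coeff m f : ℚ) : ℂ) = (((coeff m f : ℚ) : ℝ) : ℂ) := by push_cast; rfl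
        rw [h4, Complex.norm_real, Real.norm_eq_abs]
        exact h3
      exact mul_le_mul h2 (pow_le_pow_left₀ (norm_nonneg _) hu.le _) (by positivity)
        (by positivity)
  refine ⟨1 / (2 * A), by positivity, fun x hx => ?_⟩
  exact hd.analyticAt (Metric.isOpen_ball.mem_nhds (by
    rw [Metric.mem_ball, dist_zero_right]; exact hx))

lemma evc_real (f : ℚ⟦X⟧) (t : ℝ) : evc f (1 / (t : ℂ)) = ((ev t f : ℝ) : ℂ) := by
  unfold evc ev
  rw [Complex.ofReal_tsum]
  refine tsum_congr fun m => ?_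
  push_cast
  rfl

lemma evc_FF_zero : evc FF 0 = 1 := by
  have cFF : constantCoeff FF = 1 := by
    simp [FF, fu, fa, ← coeff_zero_eq_constantCoeff_apply, coeff_mul]
  unfold evc
  rw [tsum_eq_single 0]
  · simp [cFF]
  · intro m hm
    simp [hm]

/-- `1 / j` is small for large imaginary part -/
lemma small {ε : ℝ} (hε : 0 < ε) : ∃ Y : ℝ, 1 ≤ Y ∧ ∀ z : ℂ, Y ≤ z.im →
    jj z ≠ 0 ∧ ‖1 / jj z‖ < ε := by
  have h0 : Fq 0 = 0 := by unfold Fq; rw [zero_mul]
  obtain ⟨ε1, hε1, hinj⟩ := Fq_inj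
  have hc : ContinuousAt Fq 0 := Fq_strict.hasDerivAt.continuousAt
  rw [Metric.continuousAt_iff] at hc
  obtain ⟨δ, hδ, h1⟩ := hc ε hε
  obtain ⟨Y, hY, hYe⟩ : ∃ Y : ℝ, 1 ≤ Y ∧ Real.exp (-(2 * Real.pi * Y)) < min δ ε1 := by
    have h2 := (Pool.Agent.TH21.MS.xx_tendsto.eventually_lt_const (lt_min hδ hε1)).and
      (eventually_ge_atTop (1 : ℝ))
    obtain ⟨y, h3, h4⟩ := h2.exists
    exact ⟨y, h4, h3⟩
  refine ⟨Y, hY, fun z hz => ?_⟩
  have hq : ‖qq z‖ < min δ ε1 := by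
    rw [norm_qq]
    refine lt_of_le_of_lt (Real.exp_le_exp.2 ?_) hYe
    have := Real.pi_pos
    nlinarith
  have hq0 : qq z ≠ 0 := Complex.exp_ne_zero _
  constructor
  · intro h
    apply hq0
    apply hinj _ _ (hq.trans_le (min_le_right _ _)) (by simpa using hε1)
    rw [← inv_jj, h, h0, inv_zero]
  · rw [one_div, inv_jj]
    have h2 := h1 (x := qq z) (by
      rw [dist_zero_right]; exact hq.trans_le (min_le_left _ _))
    rwa [h0, dist_zero_right] at h2

/-- the identity theorem -/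
lemma ident {Y : ℝ} {f g : ℂ → ℂ} (hf : ∀ z : ℂ, Y < z.im → AnalyticAt ℂ f z)
    (hg : ∀ z : ℂ, Y < z.im → AnalyticAt ℂ g z)
    (h : ∀ y : ℝ, Y < y → f (Complex.I * y) = g (Complex.I * y)) (z : ℂ) (hz : Y < z.im) :
    f z = g z := by
  have hU : IsPreconnected {z : ℂ | Y < z.im} := (convex_halfSpace_im_gt Y).isPreconnected
  have h0 : (Complex.I * ((Y + 1 : ℝ) : ℂ)) ∈ {z : ℂ | Y < z.im} := by simp
  have ht : Tendsto (fun y : ℝ => Complex.I * (y : ℂ)) (𝓝[≠] (Y + 1))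
      (𝓝[≠] (Complex.I * ((Y + 1 : ℝ) : ℂ))) := by
    refine tendsto_nhdsWithin_iff.2 ⟨?_, ?_⟩
    · have h1 : Continuous fun y : ℝ => Complex.I * (y : ℂ) := by fun_prop
      exact h1.continuousAt.tendsto.mono_left nhdsWithin_le_nhds
    · filter_upwards [self_mem_nhdsWithin] with y hy hcon
      apply hy
      have h1 := mul_left_cancel₀ Complex.I_ne_zero hcon
      exact_mod_cast h1
  have hfr : ∃ᶠ y : ℝ in 𝓝[≠] (Y + 1), f (Complex.I * y) = g (Complex.I * y) := by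
    refine Eventually.frequently ?_
    have h1 : ∀ᶠ y : ℝ in 𝓝 (Y + 1), Y < y := eventually_gt_nhds (by linarith)
    filter_upwards [h1.filter_mono nhdsWithin_le_nhds] with y hy using h y hy
  exact AnalyticOnNhd.eqOn_of_preconnected_of_frequently_eq (fun z hz => hf z hz)
    (fun z hz => hg z hz) hU h0 (ht.frequently hfr) hz

/-- **J-ANC.** -/
theorem t_anc (han : T_AN) (hsd : T_SD) : T_ANC := by
  obtain ⟨hFs, hGs⟩ := hsd
  have hF1 : SDc F1 := SDc.X.mul hFs.deriv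
  obtain ⟨r1, hr1, a1⟩ := evc_an hFs
  obtain ⟨r2, hr2, a2⟩ := evc_an hGs
  obtain ⟨r3, hr3, a3⟩ := evc_an hF1
  obtain ⟨r4, hr4, a4⟩ : ∃ r : ℝ, 0 < r ∧ ∀ x : ℂ, ‖x‖ < r → evc FF x ≠ 0 := by
    have hc : ContinuousAt (evc FF) 0 := (a1 0 (by simpa using hr1)).continuousAt
    have h1 : ∀ᶠ x in 𝓝 (0 : ℂ), evc FF x ≠ 0 :=
      hc.eventually_ne (by rw [evc_FF_zero]; exact one_ne_zero)
    obtain ⟨r, hr, h2⟩ := Metric.eventually_nhds_iff.1 h1
    exact ⟨r, hr, fun x hx => h2 (by rwa [dist_zero_right])⟩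
  obtain ⟨Y1, hY1, hs⟩ := small (ε := min (min r1 r2) (min r3 r4))
    (lt_min (lt_min hr1 hr2) (lt_min hr3 hr4))
  obtain ⟨Y0, hY0, hA⟩ := han
  set Y := max Y0 Y1 with hY
  have hYp : 1 ≤ Y := hY0.trans (le_max_left _ _)
  have key : ∀ z : ℂ, Y < z.im → 0 < z.im ∧ jj z ≠ 0 ∧ ‖1 / jj z‖ < r1 ∧ ‖1 / jj z‖ < r2 ∧
      ‖1 / jj z‖ < r3 ∧ ‖1 / jj z‖ < r4 := by
    intro z hz
    obtain ⟨h1, h2⟩ := hs z ((le_max_right _ _).trans hz.le)
    refine ⟨by linarith, h1, ?_, ?_, ?_, ?_⟩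
    · exact h2.trans_le ((min_le_left _ _).trans (min_le_left _ _))
    · exact h2.trans_le ((min_le_left _ _).trans (min_le_right _ _))
    · exact h2.trans_le ((min_le_right _ _).trans (min_le_left _ _))
    · exact h2.trans_le ((min_le_right _ _).trans (min_le_right _ _))
  have anj : ∀ z : ℂ, Y < z.im → AnalyticAt ℂ jj z := fun z hz => jj_an z (key z hz).1
  have ani : ∀ z : ℂ, Y < z.im → AnalyticAt ℂ (fun z => 1 / jj z) z := fun z hz =>
    analyticAt_const.fun_div (anj z hz) (key z hz).2.1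
  have anF : ∀ z : ℂ, Y < z.im → AnalyticAt ℂ (fun z => evc FF (1 / jj z)) z := fun z hz =>
    AnalyticAt.fun_comp (g := evc FF) (f := fun z => 1 / jj z) (a1 _ (key z hz).2.2.1) (ani z hz)
  have anG : ∀ z : ℂ, Y < z.im → AnalyticAt ℂ (fun z => evc GG (1 / jj z)) z := fun z hz =>
    AnalyticAt.fun_comp (g := evc GG) (f := fun z => 1 / jj z) (a2 _ (key z hz).2.2.2.1)
      (ani z hz)
  have anF1 : ∀ z : ℂ, Y < z.im → AnalyticAt ℂ (fun z => evc F1 (1 / jj z)) z := fun z hz =>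
    AnalyticAt.fun_comp (g := evc F1) (f := fun z => 1 / jj z) (a3 _ (key z hz).2.2.2.2.1)
      (ani z hz)
  have hne : ∀ z : ℂ, Y < z.im → evc FF (1 / jj z) ≠ 0 := fun z hz =>
    a4 _ (key z hz).2.2.2.2.2
  -- the first identity
  have I1 : ∀ z : ℂ, Y < z.im → deriv jj z = -tpi * jj z * evc FF (1 / jj z) ^ 2 := by
    refine fun z hz => ident (f := deriv jj) (g := fun z => -tpi * jj z *
      evc FF (1 / jj z) ^ 2) (fun z hz => (anj z hz).deriv) (fun z hz =>
        (analyticAt_const.fun_mul (anj z hz)).fun_mul ((anF z hz).fun_pow 2)) (fun y hy => ?_) z hz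
    obtain ⟨h1, h2, h3, h4, h5⟩ := hA y ((le_max_left _ _).trans hy.le)
    show deriv jj (Complex.I * y) = -tpi * jj (Complex.I * y) *
      evc FF (1 / jj (Complex.I * y)) ^ 2
    rw [jj_deriv y (by linarith), jj_I, evc_real, h3]
    unfold tpi
    push_cast
    ring
  have I2 : ∀ z : ℂ, Y < z.im → deriv (deriv jj) z = tpi ^ 2 * jj z *
      (evc FF (1 / jj z) ^ 4 - 2 * evc FF (1 / jj z) ^ 3 * evc F1 (1 / jj z)) := by
    refine fun z hz => ident (f := deriv (deriv jj)) (g := fun z => tpi ^ 2 * jj z *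
      (evc FF (1 / jj z) ^ 4 - 2 * evc FF (1 / jj z) ^ 3 * evc F1 (1 / jj z)))
      (fun z hz => (anj z hz).deriv.deriv) (fun z hz =>
        (analyticAt_const.fun_mul (anj z hz)).fun_mul (((anF z hz).fun_pow 4).fun_sub
          ((analyticAt_const.fun_mul ((anF z hz).fun_pow 3)).fun_mul (anF1 z hz))))
      (fun y hy => ?_) z hz
    obtain ⟨h1, h2, h3, h4, h5⟩ := hA y ((le_max_left _ _).trans hy.le)
    show deriv (deriv jj) (Complex.I * y) = tpi ^ 2 * jj (Complex.I * y) *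
      (evc FF (1 / jj (Complex.I * y)) ^ 4 - 2 * evc FF (1 / jj (Complex.I * y)) ^ 3 *
        evc F1 (1 / jj (Complex.I * y)))
    rw [jj_deriv2 y (by linarith), jj_I, evc_real, evc_real, h5]
    unfold tpi
    push_cast
    rw [mul_pow, Complex.I_sq]
    ring
  have I3 : ∀ z : ℂ, Y < z.im → Complex.exp (tpi * z - evc GG (1 / jj z) /
      evc FF (1 / jj z)) = 1 / jj z := by
    refine fun z hz => ident (f := fun z => Complex.exp (tpi * z - evc GG (1 / jj z) /
      evc FF (1 / jj z))) (g := fun z => 1 / jj z) (fun z hz =>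
        ((analyticAt_const.fun_mul analyticAt_id).fun_sub
          ((anG z hz).fun_div (anF z hz) (hne z hz))).cexp) ani (fun y hy => ?_) z hz
    obtain ⟨h1, h2, h3, h4, h5⟩ := hA y ((le_max_left _ _).trans hy.le)
    show Complex.exp (tpi * (Complex.I * y) - evc GG (1 / jj (Complex.I * y)) /
      evc FF (1 / jj (Complex.I * y))) = 1 / jj (Complex.I * y)
    rw [jj_I, evc_real, evc_real]
    have e1 : ev (g0 y) GG / ev (g0 y) FF = Real.log (g0 y) - 2 * Real.pi * y := by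
      rw [div_eq_iff h2.ne']
      linarith
    have e2 : tpi * (Complex.I * y) - ((ev (g0 y) GG : ℝ) : ℂ) / ((ev (g0 y) FF : ℝ) : ℂ) =
        ((-Real.log (g0 y) : ℝ) : ℂ) := by
      rw [← Complex.ofReal_div, e1]
      unfold tpi
      push_cast
      linear_combination (2 * (Real.pi : ℂ) * y) * Complex.I_sq
    rw [e2, ← Complex.ofReal_exp, Real.exp_neg, Real.exp_log h1]
    push_cast
    rw [one_div]
  refine ⟨Y + 1, by linarith, fun z hz => ?_⟩
  have hz' : Y < z.im := by linarith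
  have htpi : tpi ≠ 0 := by
    unfold tpi
    simp [Real.pi_ne_zero]
  refine ⟨(key z hz').2.1, ?_, hne z hz', I1 z hz', I2 z hz', I3 z hz'⟩
  rw [I1 z hz']
  exact mul_ne_zero (mul_ne_zero (neg_ne_zero.2 htpi) (key z hz').2.1) (pow_ne_zero 2 (hne z hz'))

end Pool.Agent.Y319.J
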